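import Pool.Agent.Q131.EspnProof

/-!
# External and self private neighbours in trees: the sharp constant is 4/5
-/

namespace Pool.Agent.Results.MP_0d27c8_co.FourFifths

open SimpleGraph

/-- The external private neighbours with respect to `U`: the vertices outside `U` with exactly one
neighbour in `U`. -/
def externalPrivate {V : Type} (G : SimpleGraph V) (U : Set V) : Set V :=
  {w | w ∉ U ∧ (G.neighborSet w ∩ U).ncard = 1}

/-- The self private neighbours with respect to `U`: the vertices of `U` without neighbour
in `U`. -/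
def selfPrivate {V : Type} (G : SimpleGraph V) (U : Set V) : Set V :=
  {w | w ∈ U ∧ G.neighborSet w ∩ U = ∅}

/-- `ESPN G`: the largest number of external and self private neighbours with respect to one
set `U`. -/
noncomputable def ESPN {V : Type} (G : SimpleGraph V) : ℕ :=
  ⨆ U : Set V, ((externalPrivate G U).ncard + (selfPrivate G U).ncard)

section
variable {V : Type} [Fintype V] (G : SimpleGraph V)

omit [Fintype V] in
theorem disj (U : Set V) : Disjoint (externalPrivate G U) (selfPrivate G U) := by
  rw [Set.disjoint_left]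
  intro w h1 h2
  exact h1.1 h2.1

theorem bdd : BddAbove (Set.range fun U : Set V =>
    (externalPrivate G U).ncard + (selfPrivate G U).ncard) := by
  refine ⟨Fintype.card V, ?_⟩
  rintro _ ⟨U, rfl⟩
  simp only
  rw [← Set.ncard_union_eq (disj G U) (Set.toFinite _) (Set.toFinite _)]
  rw [← Nat.card_eq_fintype_card, ← Set.ncard_univ]
  exact Set.ncard_le_ncard (Set.subset_univ _)

theorem cn_eq (U : V → Bool) (w : V) :
    Q131.Espn.cn G U w = (G.neighborSet w ∩ {x | U x = true}).ncard := by
  classical
  rw [Q131.Espn.cn, ← Set.ncard_coe_finset]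
  congr 1
  ext x
  simp

theorem good_iff (U : V → Bool) (w : V) :
    (Q131.Espn.rs G U w = 0 ∨ Q131.Espn.rs G U w = 3) ↔
      w ∈ externalPrivate G {x | U x = true} ∪ selfPrivate G {x | U x = true} := by
  unfold Q131.Espn.rs
  rw [cn_eq]
  simp only [externalPrivate, selfPrivate, Set.mem_union, Set.mem_ofPred_eq]
  rw [← Set.ncard_eq_zero (s := G.neighborSet w ∩ {x | U x = true})]
  generalize (G.neighborSet w ∩ {x | U x = true}).ncard = c
  cases U w
  · rcases c with _ | _ | c <;> simp [Q131.Espn.st]
  · rcases c with _ | _ | c <;> simp [Q131.Espn.st]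

theorem sum_eq (U : V → Bool) : ∑ w, Q131.Espn.pt (Q131.Espn.rs G U w) =
    5 * (((externalPrivate G {x | U x = true}).ncard +
      (selfPrivate G {x | U x = true}).ncard : ℕ) : ℤ) := by
  classical
  rw [← Set.ncard_union_eq (disj G _) (Set.toFinite _) (Set.toFinite _)]
  have hf : (externalPrivate G {x | U x = true} ∪ selfPrivate G {x | U x = true}).ncard =
      (Finset.univ.filter (fun w => w ∈ externalPrivate G {x | U x = true} ∪
        selfPrivate G {x | U x = true})).card := by
    rw [← Set.ncard_coe_finset]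
    congr 1
    ext x
    simp
  rw [hf]
  unfold Q131.Espn.pt
  rw [Finset.card_filter]
  push_cast
  rw [Finset.mul_sum]
  apply Finset.sum_congr rfl
  intro w _
  rw [if_congr (good_iff G U w) rfl rfl]
  simp

theorem lower (hG : G.IsTree) : 4 * Fintype.card V ≤ 5 * ESPN G := by
  obtain ⟨U, hU⟩ := Q131.Espn.lower V G hG
  rw [sum_eq] at hU
  have h := le_ciSup (bdd G) {x | U x = true}
  have h2 : 4 * Fintype.card V ≤ 5 * ((externalPrivate G {x | U x = true}).ncard +
      (selfPrivate G {x | U x = true}).ncard) := by exact_mod_cast hU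
  exact h2.trans (Nat.mul_le_mul_left 5 h)

end

/-- The tree with the edges `01`, `03`, `04`, `12`. -/
def five : SimpleGraph (Fin 5) where
  Adj x y := (x, y) ∈ ([(0, 1), (1, 0), (0, 3), (3, 0), (0, 4), (4, 0), (1, 2), (2, 1)] :
    List (Fin 5 × Fin 5))
  symm := ⟨by decide⟩
  loopless := ⟨by decide⟩

instance : DecidableRel five.Adj := fun x y =>
  inferInstanceAs (Decidable ((x, y) ∈ _))

theorem five_isTree : five.IsTree := by
  rw [SimpleGraph.isTree_iff_connected_and_card]
  constructor
  · have h0 : ∀ x : Fin 5, five.Reachable 0 x := by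
      intro x
      have h1 : five.Reachable 0 1 := (show five.Adj 0 1 by decide).reachable
      fin_cases x
      · exact SimpleGraph.Reachable.refl _
      · exact h1
      · exact h1.trans (show five.Adj 1 2 by decide).reachable
      · exact (show five.Adj 0 3 by decide).reachable
      · exact (show five.Adj 0 4 by decide).reachable
    exact ⟨fun x y => (h0 x).symm.trans (h0 y)⟩
  · rw [Nat.card_eq_fintype_card, Nat.card_eq_fintype_card]
    decide

theorem five_bad : ∀ U : Fin 5 → Bool, ∃ w : Fin 5,
    ¬ ((U w = false ∧ (Finset.univ.filter (fun x => five.Adj w x ∧ U x = true)).card = 1) ∨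
      (U w = true ∧ (Finset.univ.filter (fun x => five.Adj w x ∧ U x = true)).card = 0)) := by
  decide +kernel

theorem five_le : ESPN five ≤ 4 := by
  classical
  apply ciSup_le
  intro U
  obtain ⟨w, hw⟩ := five_bad (fun x => decide (x ∈ U))
  rw [← Set.ncard_union_eq (disj five U) (Set.toFinite _) (Set.toFinite _)]
  have hw2 : w ∉ externalPrivate five U ∪ selfPrivate five U := by
    intro h
    apply hw
    have hc : (Finset.univ.filter (fun x => five.Adj w x ∧ decide (x ∈ U) = true)).card =
        (five.neighborSet w ∩ U).ncard := by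
      rw [← Set.ncard_coe_finset]
      congr 1
      ext x
      simp
    rcases h with h | h
    · left
      refine ⟨by simpa using h.1, ?_⟩
      rw [hc]
      exact h.2
    · right
      refine ⟨by simpa using h.1, ?_⟩
      rw [hc, h.2, Set.ncard_empty]
  have h3 : (externalPrivate five U ∪ selfPrivate five U) ⊆ ({w}ᶜ : Set (Fin 5)) := by
    intro x hx hxw
    rw [Set.mem_singleton_iff] at hxw
    rw [hxw] at hx
    exact hw2 hx
  refine (Set.ncard_le_ncard h3).trans ?_
  rw [Set.ncard_compl]
  simp

/-- **The sharp constant is 4/5.**  `4/5` is the largest real `c` with `c * n(T) ≤ ESPN(T)` for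
every finite tree `T`, and it is the least value of `ESPN(T) / n(T)`. -/
theorem result :
    IsGreatest {c : ℝ | ∀ (V : Type) [Fintype V] (T : SimpleGraph V), T.IsTree →
      c * (Fintype.card V : ℝ) ≤ (ESPN T : ℝ)} (4 / 5) ∧
    IsLeast {r : ℝ | ∃ (V : Type) (_ : Fintype V) (T : SimpleGraph V), T.IsTree ∧
      r = (ESPN T : ℝ) / (Fintype.card V : ℝ)} (4 / 5) := by
  have hlow : ∀ (V : Type) [Fintype V] (T : SimpleGraph V), T.IsTree →
      (4 / 5 : ℝ) * (Fintype.card V : ℝ) ≤ (ESPN T : ℝ) := by
    intro V _ T hT
    have h : (4 : ℝ) * (Fintype.card V : ℝ) ≤ 5 * (ESPN T : ℝ) := by exact_mod_cast lower T hT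
    linarith
  have h5 : (ESPN five : ℝ) ≤ 4 := by exact_mod_cast five_le
  refine ⟨⟨fun V _ T hT => hlow V T hT, ?_⟩, ⟨⟨Fin 5, inferInstance, five, five_isTree, ?_⟩, ?_⟩⟩
  · intro c hc
    have h := hc (Fin 5) five five_isTree
    simp only [Fintype.card_fin, Nat.cast_ofNat] at h
    linarith
  · have h := hlow (Fin 5) five five_isTree
    simp only [Fintype.card_fin, Nat.cast_ofNat] at h ⊢
    linarith
  · rintro r ⟨V, _, T, hT, rfl⟩
    have h := hlow V T hT
    have hpos : (0 : ℝ) < (Fintype.card V : ℝ) := by
      obtain ⟨v⟩ := hT.connected.nonempty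
      exact_mod_cast Fintype.card_pos_iff.2 ⟨v⟩
    rw [le_div_iff₀ hpos]
    exact h

end Pool.Agent.Results.MP_0d27c8_co.FourFifths
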